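import Pool.Agent.Y379.HA.Rob

set_option autoImplicit false

open MeasureTheory Set Filter Topology
open scoped ENNReal NNReal Real

namespace Pool.Agent.Y379.HA

open Pool.Agent.H532R3.Hall

abbrev E2 : Type := EuclideanSpace ℝ (Fin 2)

theorem F_congr {S S' : Set E2} (h : S =ᵐ[volume] S') (φ : ℝ) : F S φ = F S' φ := by
  unfold F uniform ProbabilityTheory.cond
  rw [measure_congr h, Measure.restrict_congr_set h]

/-- the robust estimate in the Euclidean plane -/
theorem robust2 : ∃ ε : ℝ, 0 < ε ∧ ∀ᶠ φ in 𝓝[>] (π / 3), ∀ S : Set E2, NullMeasurableSet S volume →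
    volume (symmDiff S unitSquare) ≤ ENNReal.ofReal ε → F (Metric.ball (0 : E2) 1) φ < F S φ := by
  obtain ⟨ε, hε, h⟩ := robust
  refine ⟨ε, hε, ?_⟩
  filter_upwards [h] with φ hφ S hS hsd
  obtain ⟨S', _, hS', hae⟩ := hS.exists_measurable_superset_ae_eq
  have hmp : MeasurePreserving (Complex.orthonormalBasisOneI.repr : ℂ → E2) volume volume :=
    Complex.orthonormalBasisOneI.measurePreserving_repr
  rw [F_congr hae.symm, F_transfer _ hS', F_transfer _ Metric.isOpen_ball.measurableSet, preimage_ball]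
  apply hφ _ (hmp.measurable hS')
  have e1 : symmDiff (Complex.orthonormalBasisOneI.repr ⁻¹' S') Q =
      Complex.orthonormalBasisOneI.repr ⁻¹' (symmDiff S' unitSquare) := by
    rw [← preimage_square]
    rfl
  rw [e1, hmp.measure_preimage (hS'.symmDiff measurableSet_unitSquare).nullMeasurableSet]
  have e2 : volume (symmDiff S' unitSquare) = volume (symmDiff S unitSquare) :=
    measure_congr (ae_eq_set_symmDiff hae (ae_eq_refl _))
  rw [e2]
  exact hsd

/-- concentric squares -/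
def box (η : ℝ) : Set E2 := {x | ∀ i, -η ≤ x i ∧ x i ≤ 1 + η}

theorem measurableSet_box (η : ℝ) : MeasurableSet (box η) := by
  have : box η = ⋂ i : Fin 2, {x : E2 | -η ≤ x i ∧ x i ≤ 1 + η} := by
    ext x; simp [box]
  rw [this]
  refine MeasurableSet.iInter fun i => ?_
  have h1 : MeasurableSet {x : E2 | -η ≤ x i} := measurableSet_le (by fun_prop) (by fun_prop)
  have h2 : MeasurableSet {x : E2 | x i ≤ 1 + η} := measurableSet_le (by fun_prop) (by fun_prop)
  exact h1.inter h2

theorem volume_box {η : ℝ} : volume (box η) = ENNReal.ofReal (1 + 2 * η) * ENNReal.ofReal (1 + 2 * η) := by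
  have hmp : MeasurePreserving (Complex.orthonormalBasisOneI.repr : ℂ → E2) volume volume :=
    Complex.orthonormalBasisOneI.measurePreserving_repr
  rw [← hmp.measure_preimage (measurableSet_box η).nullMeasurableSet]
  have e : Complex.orthonormalBasisOneI.repr ⁻¹' (box η) =
      {X : ℂ | (-η ≤ X.re ∧ X.re ≤ 1 + η) ∧ (-η ≤ X.im ∧ X.im ≤ 1 + η)} := by
    ext z
    simp only [mem_preimage, box, mem_ofPred_eq, Fin.forall_fin_two]
    have h0 : Complex.orthonormalBasisOneI.repr z 0 = z.re := by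
      rw [Complex.orthonormalBasisOneI_repr_apply]; rfl
    have h1 : Complex.orthonormalBasisOneI.repr z 1 = z.im := by
      rw [Complex.orthonormalBasisOneI_repr_apply]; rfl
    rw [h0, h1]
  rw [e, volume_rect]
  congr 2 <;> ring

theorem sandwich_vol {η : ℝ} (h0 : 0 < η) (h1 : η ≤ 1 / 2) {S : Set E2} (hl : box (-η) ⊆ S) (hu : S ⊆ box η) :
    volume (symmDiff S unitSquare) ≤ ENNReal.ofReal (8 * η) := by
  have hsub : symmDiff S unitSquare ⊆ box η \ box (-η) := by
    have q1 : box (-η) ⊆ unitSquare := fun x hx i => ⟨by have := (hx i).1; linarith, by have := (hx i).2; linarith⟩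
    have q2 : unitSquare ⊆ box η := fun x hx i => ⟨by have := (hx i).1; linarith, by have := (hx i).2; linarith⟩
    rintro x (⟨hx, hx'⟩ | ⟨hx, hx'⟩)
    · exact ⟨hu hx, fun h => hx' (q1 h)⟩
    · exact ⟨q2 hx, fun h => hx' (hl h)⟩
  refine (measure_mono hsub).trans ?_
  have hbb : box (-η) ⊆ box η := fun x hx i => ⟨by have := (hx i).1; linarith, by have := (hx i).2; linarith⟩
  have hfin : volume (box (-η)) ≠ ∞ := by rw [volume_box]; finiteness
  rw [measure_sdiff hbb (measurableSet_box _).nullMeasurableSet hfin, volume_box, volume_box,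
    ← ENNReal.ofReal_mul (by linarith), ← ENNReal.ofReal_mul (by linarith),
    ← ENNReal.ofReal_sub _ (mul_self_nonneg _)]
  apply ENNReal.ofReal_le_ofReal
  ring_nf
  exact le_rfl

/-- the superellipse of degree `p` inscribed in the unit square -/
def superellipse (p : ℕ) : Set E2 := {x | (2 * x 0 - 1) ^ p + (2 * x 1 - 1) ^ p ≤ 1}

theorem se_convex {p : ℕ} (hp : Even p) : Convex ℝ (superellipse p) := by
  intro x hx y hy a b ha hb hab
  change (2 * (a • x + b • y) 0 - 1) ^ p + (2 * (a • x + b • y) 1 - 1) ^ p ≤ 1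
  have hc := hp.convexOn_pow (𝕜 := ℝ)
  have key : ∀ i : Fin 2, (2 * (a • x + b • y) i - 1) ^ p ≤ a * (2 * x i - 1) ^ p + b * (2 * y i - 1) ^ p := by
    intro i
    have e : 2 * (a • x + b • y) i - 1 = a * (2 * x i - 1) + b * (2 * y i - 1) := by
      simp only [PiLp.add_apply, PiLp.smul_apply, smul_eq_mul]
      have : (1 : ℝ) = a + b := hab.symm
      linear_combination (-1 : ℝ) * this
    rw [e]
    exact hc.2 (mem_univ (2 * x i - 1)) (mem_univ (2 * y i - 1)) ha hb hab
  have h0 := key 0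
  have h1 := key 1
  have hx' : (2 * x 0 - 1) ^ p + (2 * x 1 - 1) ^ p ≤ 1 := hx
  have hy' : (2 * y 0 - 1) ^ p + (2 * y 1 - 1) ^ p ≤ 1 := hy
  nlinarith

theorem se_sub {p : ℕ} (hp : Even p) (h0 : p ≠ 0) : superellipse p ⊆ unitSquare := by
  intro x hx
  have hx' : (2 * x 0 - 1) ^ p + (2 * x 1 - 1) ^ p ≤ 1 := hx
  have n0 := hp.pow_nonneg (2 * x 0 - 1)
  have n1 := hp.pow_nonneg (2 * x 1 - 1)
  have key : ∀ t : ℝ, (2 * t - 1) ^ p ≤ 1 → 0 ≤ t ∧ t ≤ 1 := by
    intro t ht
    have h : |2 * t - 1| ≤ 1 := by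
      rw [← hp.pow_abs] at ht
      exact (pow_le_one_iff_of_nonneg (abs_nonneg _) h0).1 ht
    rw [abs_le] at h
    constructor <;> linarith [h.1, h.2]
  intro i
  fin_cases i
  · exact key _ (by simpa using (by linarith : (2 * x 0 - 1) ^ p ≤ 1))
  · exact key _ (by simpa using (by linarith : (2 * x 1 - 1) ^ p ≤ 1))

theorem se_sup {p : ℕ} (hp : Even p) {η : ℝ} (h0 : 0 < η) (h1 : η ≤ 1 / 2) (hpη : 1 ≤ 2 * η * p) :
    box (-η) ⊆ superellipse p := by
  intro x hx
  have hb : (1 : ℝ) + p * (2 * η) ≤ (1 + 2 * η) ^ p := one_add_mul_le_pow (by linarith) p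
  have key : ∀ i : Fin 2, (2 * x i - 1) ^ p ≤ 1 / 2 := by
    intro i
    have h : |2 * x i - 1| ≤ 1 - 2 * η := by
      rw [abs_le]
      have := (hx i).1
      have := (hx i).2
      constructor <;> linarith
    rw [← hp.pow_abs]
    have e1 : |2 * x i - 1| ^ p ≤ (1 - 2 * η) ^ p := pow_le_pow_left₀ (abs_nonneg _) h p
    have e2 : (1 - 2 * η) ^ p * (1 + 2 * η) ^ p ≤ 1 := by
      rw [← mul_pow]
      apply pow_le_one₀
      · apply mul_nonneg <;> linarith
      · nlinarith
    have e3 : 0 ≤ (1 - 2 * η) ^ p := pow_nonneg (by linarith) p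
    nlinarith
  have k0 := key 0
  have k1 := key 1
  change (2 * x 0 - 1) ^ p + (2 * x 1 - 1) ^ p ≤ 1
  linarith

theorem box_interior {η : ℝ} (h1 : η < 1 / 2) : (interior (box (-η))).Nonempty := by
  have hopen : IsOpen {x : E2 | ∀ i, η < x i ∧ x i < 1 - η} := by
    have : {x : E2 | ∀ i, η < x i ∧ x i < 1 - η} = ⋂ i : Fin 2, {x : E2 | η < x i ∧ x i < 1 - η} := by
      ext x; simp
    rw [this]
    refine isOpen_iInter_of_finite fun i => ?_
    have h1 : IsOpen {x : E2 | η < x i} := isOpen_lt (by fun_prop) (by fun_prop)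
    have h2 : IsOpen {x : E2 | x i < 1 - η} := isOpen_lt (by fun_prop) (by fun_prop)
    exact h1.inter h2
  have hsub : {x : E2 | ∀ i, η < x i ∧ x i < 1 - η} ⊆ box (-η) := fun x hx i =>
    ⟨by have := (hx i).1; linarith, by have := (hx i).2; linarith⟩
  refine ⟨WithLp.toLp 2 (fun _ => (1 / 2 : ℝ)), interior_maximal hsub hopen ?_⟩
  intro i
  change η < (1 / 2 : ℝ) ∧ (1 / 2 : ℝ) < 1 - η
  constructor <;> linarith

theorem box_bounded (η : ℝ) : Bornology.IsBounded (box η) := by
  rw [isBounded_iff_forall_norm_le]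
  refine ⟨2 * (1 + |η|), fun x hx => ?_⟩
  rw [EuclideanSpace.norm_eq, Fin.sum_univ_two]
  have h0 := hx 0
  have h1 := hx 1
  have ha := abs_nonneg η
  have k : ∀ i, ‖x i‖ ^ 2 ≤ (1 + |η|) ^ 2 := by
    intro i
    rw [Real.norm_eq_abs]
    apply pow_le_pow_left₀ (abs_nonneg _)
    rw [abs_le]
    have := (hx i).1
    have := (hx i).2
    have := le_abs_self η
    constructor <;> linarith
  rw [Real.sqrt_le_left (by positivity)]
  have := k 0
  have := k 1
  nlinarith

end Pool.Agent.Y379.HA
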