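import Pool.Agent.H532R3.Hall.Main

set_option autoImplicit false

open MeasureTheory Set Filter Topology
open scoped ENNReal NNReal Real

namespace Pool.Agent.Y379.HA

open Pool.Agent.H532R3.Hall

theorem swap23 (X Y Z : ℂ) : largestAngle X Z Y = largestAngle X Y Z := by
  rw [← largestAngle_swap12 X Y Z, ← largestAngle_swap13 Y X Z, ← largestAngle_swap12 Z X Y]

theorem fibre {X Y : ℂ} (hX : X ∈ Q) (hY : Y ∈ Q) (hne : Y ≠ X) (φ : ℝ) :
    ∫⁻ Z, ({Z | largestAngle X Y Z ≤ φ} : Set ℂ).indicator 1 Z ≤ 2 * volume (A φ) := by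
  have hu : Y - X ≠ 0 := sub_ne_zero.2 hne
  have hm : MeasurableSet {Z : ℂ | largestAngle X Y Z ≤ φ} := by
    have h0 : MeasurableSet {p : ℂ × ℂ × ℂ | largestAngle p.1 p.2.1 p.2.2 ≤ φ} :=
      measurableSet_le measurable_largestAngle measurable_const
    have h1 : Measurable fun Z : ℂ => (X, Y, Z) := by fun_prop
    exact h1 h0
  rw [lintegral_affine X (Y - X) hu _ (measurable_one.indicator hm)]
  have e : (fun ζ : ℂ => ({Z | largestAngle X Y Z ≤ φ} : Set ℂ).indicator (1 : ℂ → ℝ≥0∞) (X + (Y - X) * ζ)) =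
      (A φ).indicator 1 := by
    ext ζ
    have h := largestAngle_similar X (Y - X) ζ hu
    rw [add_sub_cancel] at h
    by_cases hζ : ζ ∈ A φ
    · rw [indicator_of_mem hζ, indicator_of_mem]
      · rfl
      · change largestAngle X Y (X + (Y - X) * ζ) ≤ φ
        rw [h]; exact hζ
    · rw [indicator_of_notMem hζ, indicator_of_notMem]
      intro hcon
      apply hζ
      change largestAngle 0 1 ζ ≤ φ
      rw [← h]; exact hcon
  rw [e, lintegral_indicator_one (measurableSet_A φ)]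
  gcongr
  have h2 : Complex.normSq (Y - X) ≤ 2 := by
    rw [Complex.normSq_apply, Complex.sub_re, Complex.sub_im]
    obtain ⟨⟨a1, a2⟩, a3, a4⟩ := hX
    obtain ⟨⟨b1, b2⟩, b3, b4⟩ := hY
    have k1 : (Y.re - X.re) * (Y.re - X.re) ≤ 1 := by
      have : |Y.re - X.re| ≤ 1 := abs_le.2 ⟨by linarith, by linarith⟩
      rw [← abs_mul_abs_self]; nlinarith [abs_nonneg (Y.re - X.re)]
    have k2 : (Y.im - X.im) * (Y.im - X.im) ≤ 1 := by
      have : |Y.im - X.im| ≤ 1 := abs_le.2 ⟨by linarith, by linarith⟩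
      rw [← abs_mul_abs_self]; nlinarith [abs_nonneg (Y.im - X.im)]
    linarith
  calc ENNReal.ofReal (Complex.normSq (Y - X)) ≤ ENNReal.ofReal 2 := ENNReal.ofReal_le_ofReal h2
    _ = 2 := by simp

theorem double {M N : Set ℂ} (hM : MeasurableSet M) (hN : MeasurableSet N) (hMQ : M ⊆ Q) (hNQ : N ⊆ Q)
    (φ : ℝ) (g : ℂ → ℂ → ℝ≥0∞) (hg : ∀ X ∈ M, ∀ Y ∈ N, Y ≠ X → g X Y ≤ 2 * volume (A φ))
    (h0 : ∀ X Y, ¬ (X ∈ M ∧ Y ∈ N) → g X Y = 0) :
    ∫⁻ X, ∫⁻ Y, g X Y ≤ volume M * (volume N * (2 * volume (A φ))) := by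
  calc ∫⁻ X, ∫⁻ Y, g X Y ≤ ∫⁻ X, M.indicator (fun _ => volume N * (2 * volume (A φ))) X := by
        apply lintegral_mono
        intro X
        by_cases hX : X ∈ M
        · rw [indicator_of_mem hX]
          calc ∫⁻ Y, g X Y ≤ ∫⁻ Y, N.indicator (fun _ => 2 * volume (A φ)) Y := by
                apply lintegral_mono_ae
                have : ∀ᵐ Y : ℂ, Y ≠ X := by simp [ae_iff]
                filter_upwards [this] with Y hYX
                by_cases hY : Y ∈ N
                · rw [indicator_of_mem hY]; exact hg X hX Y hY hYX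
                · rw [indicator_of_notMem hY, h0 X Y (fun h => hY h.2)]
            _ = volume N * (2 * volume (A φ)) := by
                rw [lintegral_indicator hN, setLIntegral_const, mul_comm]
        · rw [indicator_of_notMem hX]
          simp [h0 X _ (fun h => hX h.1)]
    _ = volume M * (volume N * (2 * volume (A φ))) := by
        rw [lintegral_indicator hM, setLIntegral_const, mul_comm]

/-- configurations with vertices in `M`, `N` and anywhere -/
def W (M N : Set ℂ) (φ : ℝ) : Set (ℂ × ℂ × ℂ) :=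
  {p | p.1 ∈ M ∧ p.2.1 ∈ N ∧ largestAngle p.1 p.2.1 p.2.2 ≤ φ}

def W' (M N : Set ℂ) (φ : ℝ) : Set (ℂ × ℂ × ℂ) :=
  {p | p.1 ∈ M ∧ p.2.2 ∈ N ∧ largestAngle p.1 p.2.1 p.2.2 ≤ φ}

theorem W_le {M N : Set ℂ} (hM : MeasurableSet M) (hN : MeasurableSet N) (hMQ : M ⊆ Q) (hNQ : N ⊆ Q)
    (φ : ℝ) : volume (W M N φ) ≤ volume M * (volume N * (2 * volume (A φ))) := by
  have hW : MeasurableSet (W M N φ) := (measurable_fst hM).inter ((measurable_snd.fst hN).inter
    (measurableSet_le measurable_largestAngle measurable_const))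
  rw [volume_triple hW]
  apply double hM hN hMQ hNQ φ
  · intro X hX Y hY hne
    refine le_trans (lintegral_mono fun Z => ?_) (fibre (hMQ hX) (hNQ hY) hne φ)
    by_cases h : (X, Y, Z) ∈ W M N φ
    · rw [indicator_of_mem h, indicator_of_mem]
      · exact le_rfl
      · exact h.2.2
    · rw [indicator_of_notMem h]; exact zero_le
  · intro X Y h
    have : ∀ Z, (W M N φ).indicator (1 : ℂ × ℂ × ℂ → ℝ≥0∞) (X, Y, Z) = 0 := fun Z =>
      indicator_of_notMem (fun hcon => h ⟨hcon.1, hcon.2.1⟩) _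
    simp [this]

theorem W'_le {M N : Set ℂ} (hM : MeasurableSet M) (hN : MeasurableSet N) (hMQ : M ⊆ Q) (hNQ : N ⊆ Q)
    (φ : ℝ) : volume (W' M N φ) ≤ volume M * (volume N * (2 * volume (A φ))) := by
  have hW : MeasurableSet (W' M N φ) := (measurable_fst hM).inter ((measurable_snd.snd hN).inter
    (measurableSet_le measurable_largestAngle measurable_const))
  have hmeas : Measurable ((W' M N φ).indicator (1 : ℂ × ℂ × ℂ → ℝ≥0∞)) := measurable_one.indicator hW
  rw [volume_triple hW]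
  have hsw : ∀ X : ℂ, ∫⁻ Y, ∫⁻ Z, (W' M N φ).indicator (1 : ℂ × ℂ × ℂ → ℝ≥0∞) (X, Y, Z) =
      ∫⁻ Z, ∫⁻ Y, (W' M N φ).indicator (1 : ℂ × ℂ × ℂ → ℝ≥0∞) (X, Y, Z) := fun X =>
    lintegral_lintegral_swap (by fun_prop)
  simp_rw [hsw]
  apply double hM hN hMQ hNQ φ
  · intro X hX Z hZ hne
    refine le_trans (lintegral_mono fun Y => ?_) (fibre (hMQ hX) (hNQ hZ) hne φ)
    by_cases h : (X, Y, Z) ∈ W' M N φ
    · rw [indicator_of_mem h, indicator_of_mem]
      · exact le_rfl
      · change largestAngle X Z Y ≤ φ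
        rw [swap23]; exact h.2.2
    · rw [indicator_of_notMem h]; exact zero_le
  · intro X Z h
    have : ∀ Y, (W' M N φ).indicator (1 : ℂ × ℂ × ℂ → ℝ≥0∞) (X, Y, Z) = 0 := fun Y =>
      indicator_of_notMem (fun hcon => h ⟨hcon.1, hcon.2.1⟩) _
    simp [this]

theorem T_compare {S : Set ℂ} (hS : MeasurableSet S) (φ : ℝ) :
    volume (T Q φ) ≤ volume (T S φ) + 6 * (volume (Q \ S) * volume (A φ)) := by
  have hD : MeasurableSet (Q \ S) := measurableSet_Q.diff hS
  have hsub : T Q φ ⊆ T S φ ∪ (W (Q \ S) Q φ ∪ W Q (Q \ S) φ ∪ W' Q (Q \ S) φ) := by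
    rintro ⟨X, Y, Z⟩ ⟨hX, hY, hZ, h⟩
    simp only at hX hY hZ h
    by_cases h1 : X ∈ S
    · by_cases h2 : Y ∈ S
      · by_cases h3 : Z ∈ S
        · exact Or.inl ⟨h1, h2, h3, h⟩
        · exact Or.inr (Or.inr ⟨hX, ⟨hZ, h3⟩, h⟩)
      · exact Or.inr (Or.inl (Or.inr ⟨hX, ⟨hY, h2⟩, h⟩))
    · exact Or.inr (Or.inl (Or.inl ⟨⟨hX, h1⟩, hY, h⟩))
  have w1 := W_le hD measurableSet_Q sdiff_subset Subset.rfl φ
  have w2 := W_le measurableSet_Q hD Subset.rfl sdiff_subset φ
  have w3 := W'_le measurableSet_Q hD Subset.rfl sdiff_subset φ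
  rw [volume_Q] at w1 w2 w3
  calc volume (T Q φ) ≤ volume (T S φ ∪ (W (Q \ S) Q φ ∪ W Q (Q \ S) φ ∪ W' Q (Q \ S) φ)) := measure_mono hsub
    _ ≤ volume (T S φ) + (volume (W (Q \ S) Q φ) + volume (W Q (Q \ S) φ) + volume (W' Q (Q \ S) φ)) := by
        refine (measure_union_le _ _).trans ?_
        gcongr
        refine (measure_union_le _ _).trans ?_
        gcongr
        exact measure_union_le _ _
    _ ≤ volume (T S φ) + (volume (Q \ S) * (1 * (2 * volume (A φ))) + 1 * (volume (Q \ S) * (2 * volume (A φ)))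
          + 1 * (volume (Q \ S) * (2 * volume (A φ)))) := by gcongr
    _ = volume (T S φ) + 6 * (volume (Q \ S) * volume (A φ)) := by ring

/-- the estimates of the starting file -/
theorem key : ∃ c : ℝ, 0 ≤ c ∧ c < 1225 / 10000 ∧ ∀ᶠ φ in 𝓝[>] (π / 3),
    0 < (volume (A φ)).toReal ∧ volume (A φ) ≠ ∞ ∧
    ENNReal.ofReal (1225 / 10000) * volume (A φ) ≤ volume (T Q φ) ∧
    F (Metric.ball (0 : ℂ) 1) φ ≤ c * (volume (A φ)).toReal := by
  have hpi := Real.pi_pos
  obtain ⟨n1, n2⟩ := numeric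
  obtain ⟨m1, hm1, hm1'⟩ := exists_between n1
  have hm1pos : 0 ≤ m1 := by
    have h0 : 0 ≤ hr z0 := by
      unfold hr
      apply intervalIntegral.integral_nonneg (by linarith)
      intro ψ _
      positivity
    linarith
  have hc1 : ∀ᶠ ζ in 𝓝 z0, hr ζ < m1 ∧ 1225 / 10000 < HQr ζ ∧ 1 / 4 < Complex.normSq ζ := by
    refine (continuous_hr.continuousAt.eventually_lt_const hm1).and
      ((continuous_HQr.continuousAt.eventually_const_lt n2).and ?_)
    apply (by fun_prop : Continuous fun ζ : ℂ => Complex.normSq ζ).continuousAt.eventually_const_lt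
    change (1 / 4 : ℝ) < Complex.normSq z0
    rw [normSq_z0]; norm_num
  obtain ⟨ε, hε, hball⟩ := Metric.eventually_nhds_iff.mp hc1
  have hall : ∀ ζ : ℂ, (dist ζ z0 < ε ∨ dist ζ (starRingEnd ℂ z0) < ε) →
      hr ζ < m1 ∧ 1225 / 10000 < HQr ζ ∧ 1 / 4 < Complex.normSq ζ := by
    rintro ζ (h | h)
    · exact hball h
    · have : dist (starRingEnd ℂ ζ) z0 < ε := by
        rw [← Complex.dist_conj_conj, Complex.conj_conj]
        exact h
      have := hball this
      rwa [hr_conj, HQr_conj, Complex.normSq_conj] at this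
  refine ⟨m1 / π ^ 2, by positivity, by rw [div_lt_iff₀ (by positivity)]; exact hm1', ?_⟩
  filter_upwards [A_near hε, self_mem_nhdsWithin] with φ hA hφ
  rw [mem_Ioi] at hφ
  have hAm := measurableSet_A φ
  have hpos := volume_A_pos hφ
  have hfin : volume (A φ) < ∞ := by
    have hsub : A φ ⊆ Metric.ball z0 ε ∪ Metric.ball (starRingEnd ℂ z0) ε := by
      intro ζ hζ
      rcases hA ζ hζ with h | h
      · left; exact h
      · right; exact h
    exact (measure_mono hsub).trans_lt (measure_union_lt_top measure_ball_lt_top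
      measure_ball_lt_top)
  have hQ : ENNReal.ofReal (1225 / 10000) * volume (A φ) ≤ volume (T Q φ) := by
    rw [volume_T_Q, ← setLIntegral_const]
    apply setLIntegral_mono' hAm
    intro ζ hζ
    exact (ENNReal.ofReal_le_ofReal (hall ζ (hA ζ hζ)).2.1.le).trans (HQ_ge ζ)
  have hD : volume (T (Metric.ball (0 : ℂ) 1) φ) ≤
      3 * (ENNReal.ofReal (π / 3) * (ENNReal.ofReal m1 * volume (A φ))) := by
    refine (T_ball_le φ).trans ?_
    gcongr
    rw [volume_G]
    gcongr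
    · exact c4_le
    · rw [← setLIntegral_const]
      apply setLIntegral_mono' hAm
      intro ζ hζ
      have := hall ζ (hA ζ hζ)
      exact (h_le ζ this.2.2.le).trans (ENNReal.ofReal_le_ofReal this.1.le)
  refine ⟨ENNReal.toReal_pos hpos.ne' hfin.ne, hfin.ne, hQ, ?_⟩
  rw [F_eq, volume_disc]
  set v : ℝ := (volume (A φ)).toReal with hv
  have r2 : (volume (T (Metric.ball (0 : ℂ) 1) φ)).toReal ≤ π * (m1 * v) := by
    have htop : 3 * (ENNReal.ofReal (π / 3) * (ENNReal.ofReal m1 * volume (A φ))) ≠ ∞ := by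
      finiteness
    have := ENNReal.toReal_mono htop hD
    rw [ENNReal.toReal_mul, ENNReal.toReal_mul, ENNReal.toReal_mul,
      ENNReal.toReal_ofReal (by positivity), ENNReal.toReal_ofReal hm1pos] at this
    have e : (3 : ℝ≥0∞).toReal = 3 := by norm_num
    rw [e, ← hv] at this
    linarith
  rw [ENNReal.toReal_mul, ENNReal.toReal_mul, ENNReal.toReal_mul, ENNReal.toReal_inv,
    ENNReal.toReal_ofReal hpi.le]
  calc π⁻¹ * (π⁻¹ * π⁻¹) * (volume (T (Metric.ball (0 : ℂ) 1) φ)).toReal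
      ≤ π⁻¹ * (π⁻¹ * π⁻¹) * (π * (m1 * v)) := by gcongr
    _ = m1 / π ^ 2 * v := by field_simp

/-- all measurable sets near the square, uniformly -/
theorem robust : ∃ ε : ℝ, 0 < ε ∧ ∀ᶠ φ in 𝓝[>] (π / 3), ∀ S : Set ℂ, MeasurableSet S →
    volume (symmDiff S Q) ≤ ENNReal.ofReal ε → F (Metric.ball (0 : ℂ) 1) φ < F S φ := by
  obtain ⟨c, hc0, hc1, hkey⟩ := key
  let gap : ℝ := 1225 / 10000 - c
  have hgap : 0 < gap := by simp only [gap]; linarith
  let ε : ℝ := min (1 / 2) (gap / 14)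
  have hε : 0 < ε := lt_min (by norm_num) (by positivity)
  have e1 : ε ≤ 1 / 2 := min_le_left _ _
  have e2 : ε ≤ gap / 14 := min_le_right _ _
  refine ⟨ε, hε, ?_⟩
  filter_upwards [hkey] with φ hφ S hS hsd
  obtain ⟨hv, hfin, hQ, hB⟩ := hφ
  have hd1 : volume (Q \ S) ≤ ENNReal.ofReal ε :=
    (measure_mono (by intro x hx; exact Or.inr hx)).trans hsd
  have hd2 : volume (S \ Q) ≤ ENNReal.ofReal ε :=
    (measure_mono (by intro x hx; exact Or.inl hx)).trans hsd
  have hcov1 : S ⊆ Q ∪ (S \ Q) := by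
    intro x hx
    by_cases h : x ∈ Q
    · exact Or.inl h
    · exact Or.inr ⟨hx, h⟩
  have hcov2 : Q ⊆ S ∪ (Q \ S) := by
    intro x hx
    by_cases h : x ∈ S
    · exact Or.inl h
    · exact Or.inr ⟨hx, h⟩
  have hS1 : volume S ≤ ENNReal.ofReal (1 + ε) := by
    calc volume S ≤ volume (Q ∪ (S \ Q)) := measure_mono hcov1
      _ ≤ volume Q + volume (S \ Q) := measure_union_le _ _
      _ ≤ ENNReal.ofReal 1 + ENNReal.ofReal ε := by
          rw [volume_Q, ENNReal.ofReal_one]; gcongr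
      _ = ENNReal.ofReal (1 + ε) := (ENNReal.ofReal_add (by norm_num) hε.le).symm
  have hS2 : ENNReal.ofReal (1 - ε) ≤ volume S := by
    have h1 : ENNReal.ofReal 1 ≤ volume S + ENNReal.ofReal ε := by
      calc ENNReal.ofReal 1 = volume Q := by rw [volume_Q, ENNReal.ofReal_one]
        _ ≤ volume (S ∪ (Q \ S)) := measure_mono hcov2
        _ ≤ volume S + volume (Q \ S) := measure_union_le _ _
        _ ≤ volume S + ENNReal.ofReal ε := by gcongr
    rw [ENNReal.ofReal_sub _ hε.le]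
    exact tsub_le_iff_right.2 h1
  have hSfin : volume S ≠ ∞ := (hS1.trans_lt ENNReal.ofReal_lt_top).ne
  have hTfin : volume (T S φ) ≠ ∞ := by
    have hsub : T S φ ⊆ S ×ˢ (S ×ˢ S) := by
      intro p hp
      exact ⟨hp.1, hp.2.1, hp.2.2.1⟩
    refine ((measure_mono hsub).trans_lt ?_).ne
    rw [Measure.volume_eq_prod, Measure.prod_prod, Measure.volume_eq_prod, Measure.prod_prod]
    finiteness
  set v : ℝ := (volume (A φ)).toReal with hvdef
  set s : ℝ := (volume S).toReal with hsdef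
  set t : ℝ := (volume (T S φ)).toReal with htdef
  have hs1 : s ≤ 1 + ε := by
    have := ENNReal.toReal_mono ENNReal.ofReal_ne_top hS1
    rwa [ENNReal.toReal_ofReal (by linarith)] at this
  have hs2 : 1 - ε ≤ s := by
    have := ENNReal.toReal_mono hSfin hS2
    rwa [ENNReal.toReal_ofReal (by linarith)] at this
  have hs0 : 0 < s := by linarith
  have ht : (1225 / 10000 - 6 * ε) * v ≤ t := by
    have h1 : ENNReal.ofReal (1225 / 10000) * volume (A φ) ≤
        volume (T S φ) + 6 * (ENNReal.ofReal ε * volume (A φ)) :=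
      hQ.trans ((T_compare hS φ).trans (by gcongr))
    have htop : volume (T S φ) + 6 * (ENNReal.ofReal ε * volume (A φ)) ≠ ∞ := by finiteness
    have h2 := ENNReal.toReal_mono htop h1
    rw [ENNReal.toReal_mul, ENNReal.toReal_ofReal (by norm_num),
      ENNReal.toReal_add hTfin (by finiteness), ENNReal.toReal_mul, ENNReal.toReal_mul,
      ENNReal.toReal_ofReal hε.le] at h2
    have e6 : (6 : ℝ≥0∞).toReal = 6 := by norm_num
    rw [e6, ← hvdef, ← htdef] at h2
    linarith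
  have hF : F S φ = s⁻¹ * (s⁻¹ * s⁻¹) * t := by
    rw [F_eq, ENNReal.toReal_mul, ENNReal.toReal_mul, ENNReal.toReal_mul, ENNReal.toReal_inv]
  rw [hF]
  refine hB.trans_lt ?_
  have e3 : s⁻¹ * (s⁻¹ * s⁻¹) * t = t / s ^ 3 := by field_simp
  rw [e3, lt_div_iff₀ (by positivity)]
  have hs3 : s ^ 3 ≤ 1 + 7 * ε := by
    calc s ^ 3 ≤ (1 + ε) ^ 3 := by gcongr
      _ ≤ 1 + 7 * ε := by nlinarith [sq_nonneg ε, mul_pos hε hε]
  have hcv : 0 ≤ c * v := mul_nonneg hc0 hv.le
  calc c * v * s ^ 3 ≤ c * v * (1 + 7 * ε) := mul_le_mul_of_nonneg_left hs3 hcv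
    _ < (1225 / 10000 - 6 * ε) * v := by
        have h5 : c * (1 + 7 * ε) < 1225 / 10000 - 6 * ε := by
          have : c * (7 * ε) ≤ 1225 / 10000 * (7 * ε) := by gcongr
          simp only [gap] at e2
          nlinarith
        nlinarith
    _ ≤ t := ht

end Pool.Agent.Y379.HA
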